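import Mathlib

set_option autoImplicit false

namespace Pool.Agent.Lib.MP_222d4b_co

open Polynomial

/-- Fibonacci polynomials over the field with two elements. -/
noncomputable def fib : ℕ → (ZMod 2)[X]
  | 0 => 0
  | 1 => 1
  | (n + 2) => X * fib (n + 1) + fib n

lemma fib_zero : fib 0 = 0 := rfl
lemma fib_one : fib 1 = 1 := rfl
lemma fib_add_two (n : ℕ) : fib (n + 2) = X * fib (n + 1) + fib n := rfl

lemma two_eq_zero_poly : (2 : (ZMod 2)[X]) = 0 := by
  have : (2 : (ZMod 2)[X]) = C (2 : ZMod 2) := rfl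
  rw [this]
  have h : (2 : ZMod 2) = 0 := rfl
  rw [h, map_zero]

lemma fib_double (n : ℕ) :
    fib (2 * n) = X * fib n ^ 2 ∧ fib (2 * n + 1) = fib (n + 1) ^ 2 + fib n ^ 2 := by
  induction n with
  | zero => simp [fib_zero, fib_one]
  | succ n ih =>
    obtain ⟨h1, h2⟩ := ih
    have e1 : fib (2 * (n + 1)) = X * fib (n + 1) ^ 2 := by
      have : 2 * (n + 1) = 2 * n + 2 := by ring
      rw [this, fib_add_two, h1, h2]
      linear_combination (X * fib n ^ 2) * two_eq_zero_poly
    refine ⟨e1, ?_⟩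
    have : 2 * (n + 1) + 1 = (2 * n + 1) + 2 := by ring
    rw [this, fib_add_two, h2]
    have e2 : 2 * n + 1 + 1 = 2 * (n + 1) := by ring
    rw [e2, e1, fib_add_two]
    linear_combination (- X * fib (n + 1) * fib n) * two_eq_zero_poly

section field
variable {K : Type*} [Field K] [Algebra (ZMod 2) K]

lemma two_eq_zero_K : (2 : K) = 0 := by
  have h : (2 : ZMod 2) = 0 := rfl
  have : (2 : K) = algebraMap (ZMod 2) K 2 := by rw [map_ofNat]
  rw [this, h, map_zero]

lemma fib_eval (z w : K) (hzw : z * w = 1) (m : ℕ) :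
    (z + w) * aeval (z + w) (fib m) = z ^ m + w ^ m ∧
    (z + w) * aeval (z + w) (fib (m + 1)) = z ^ (m + 1) + w ^ (m + 1) := by
  have h2 : (2 : K) = 0 := two_eq_zero_K
  induction m with
  | zero =>
    constructor
    · simp only [fib_zero, map_zero, mul_zero, pow_zero]
      linear_combination (-1 : K) * h2
    · simp [fib_one]
  | succ m ih =>
    obtain ⟨h0, h1⟩ := ih
    refine ⟨h1, ?_⟩
    rw [fib_add_two]
    simp only [map_add, map_mul, aeval_X]
    linear_combination (z + w) * h1 + h0 + (z ^ m + w ^ m) * hzw + (z ^ m + w ^ m) * h2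

lemma fib_eval_zero (m : ℕ) :
    aeval (0 : K) (fib (2 * m)) = 0 ∧ aeval (0 : K) (fib (2 * m + 1)) = 1 := by
  induction m with
  | zero => simp [fib_zero, fib_one]
  | succ m ih =>
    obtain ⟨h0, h1⟩ := ih
    constructor
    · have : 2 * (m + 1) = 2 * m + 2 := by ring
      rw [this, fib_add_two]
      simp [h0]
    · have : 2 * (m + 1) + 1 = (2 * m + 1) + 2 := by ring
      rw [this, fib_add_two]
      simp [h1]

lemma fib_eval_one (m : ℕ) :
    aeval (1 : K) (fib (3 * m)) = 0 ∧ aeval (1 : K) (fib (3 * m + 1)) = 1 := by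
  have h2 : (2 : K) = 0 := two_eq_zero_K
  induction m with
  | zero => simp [fib_zero, fib_one]
  | succ m ih =>
    obtain ⟨h0, h1⟩ := ih
    have a2 : aeval (1 : K) (fib (3 * m + 2)) = 1 := by
      rw [fib_add_two]; simp [h0, h1]
    have a3 : aeval (1 : K) (fib (3 * (m + 1))) = 0 := by
      have : 3 * (m + 1) = (3 * m + 1) + 2 := by ring
      rw [this, fib_add_two]
      simp only [map_add, map_mul, aeval_X, one_mul]
      rw [a2, h1]
      linear_combination h2
    refine ⟨a3, ?_⟩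
    have : 3 * (m + 1) + 1 = (3 * m + 2) + 2 := by ring
    rw [this, fib_add_two]
    simp only [map_add, map_mul, aeval_X, one_mul]
    have e : 3 * m + 2 + 1 = 3 * (m + 1) := by ring
    rw [e, a3, a2, zero_add]

lemma four_pow (j : ℕ) : ∃ s : ℕ, 4 ^ (3 ^ j) = 1 + 3 ^ (j + 1) + 3 ^ (j + 2) * s := by
  induction j with
  | zero => exact ⟨0, by norm_num⟩
  | succ j ih =>
    obtain ⟨s, hs⟩ := ih
    refine ⟨s + 3 ^ j * (1 + 3 * s) ^ 2 + 3 ^ (2 * j) * (1 + 3 * s) ^ 3, ?_⟩
    rw [pow_succ 3 j, pow_mul, hs]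
    ring

omit [Algebra (ZMod 2) K] in
lemma cube_root_sum {a : K} (h : a ^ 3 = 1) (h1 : a ≠ 1) : 1 + a + a ^ 2 = 0 := by
  have : (a - 1) * (1 + a + a ^ 2) = 0 := by linear_combination h
  rcases mul_eq_zero.1 this with h' | h'
  · exact absurd (sub_eq_zero.1 h') h1
  · exact h'

lemma eq_one_of_add_inv {z z' : K} (hz : z * z' = 1) (h : z + z' = 0) : z = 1 := by
  have h2 : (2 : K) = 0 := two_eq_zero_K
  have : (z - 1) ^ 2 = 0 := by linear_combination z * h - hz - z * h2
  exact sub_eq_zero.1 (pow_eq_zero_iff (two_ne_zero) |>.1 this)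

omit [Algebra (ZMod 2) K] in
/-- The orbit sum of a root of unity under the Frobenius power. -/
lemma orbit_sum (φ : K →+* K) (Q j s : ℕ) (hQ : Q = 1 + 3 ^ (j + 1) + 3 ^ (j + 2) * s)
    (hφ : ∀ y, φ y = y ^ Q) (z : K) (hz : z ^ (3 ^ (j + 2)) = 1) :
    z + φ z + φ (φ z) = z * (1 + z ^ (3 ^ (j + 1)) + (z ^ (3 ^ (j + 1))) ^ 2) := by
  set a := z ^ (3 ^ (j + 1)) with ha
  have a3 : a ^ 3 = 1 := by rw [ha, ← pow_mul, ← pow_succ, hz]
  have e1 : φ z = z * a := by
    rw [hφ, hQ, pow_add, pow_add, pow_one, pow_mul, hz, one_pow, mul_one]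
  have e2 : φ a = a := by
    have : Q = 1 + 3 * (3 ^ j + 3 ^ (j + 1) * s) := by rw [hQ]; ring
    rw [hφ, this, pow_add, pow_one, pow_mul, a3, one_pow, mul_one]
  rw [e1, map_mul, e1, e2]
  ring

lemma no_solution (k : ℕ) : ∀ z z' w w' : K, z * z' = 1 → w * w' = 1 → z ^ (3 ^ k) = 1 →
    w ^ (3 ^ k) = 1 → z ≠ 1 → w ≠ 1 → z + z' + w + w' + 1 ≠ 0 := by
  have h2 : (2 : K) = 0 := two_eq_zero_K
  have : CharP K 2 := by
    have : Fact (Nat.Prime 2) := ⟨Nat.prime_two⟩
    exact charP_of_injective_algebraMap (algebraMap (ZMod 2) K).injective 2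
  induction k with
  | zero =>
    intro z z' w w' _ _ hz _ hz1 _
    exact absurd (by simpa using hz) hz1
  | succ k ih =>
    intro z z' w w' hzz hww hz hw hz1 hw1 hsum
    rcases k with _ | j
    · have a := cube_root_sum (by simpa using hz) hz1
      have b := cube_root_sum (by simpa using hw) hw1
      have a' : z + z' + 1 = 0 := by linear_combination z' * a - (1 + z) * hzz
      have b' : w + w' + 1 = 0 := by linear_combination w' * b - (1 + w) * hww
      have : (1 : K) = 0 := by linear_combination a' + b' - hsum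
      exact one_ne_zero this
    · obtain ⟨s, hs⟩ := four_pow j
      let φ : K →+* K := iterateFrobenius K 2 (2 * 3 ^ j)
      have hφ : ∀ y, φ y = y ^ (4 ^ (3 ^ j)) := by
        intro y
        rw [iterateFrobenius_def, pow_mul]
        norm_num
      have hz' : z' ^ (3 ^ (j + 2)) = 1 := by
        have : (z * z') ^ (3 ^ (j + 2)) = 1 := by rw [hzz, one_pow]
        rw [mul_pow, hz, one_mul] at this
        exact this
      have hw' : w' ^ (3 ^ (j + 2)) = 1 := by
        have : (w * w') ^ (3 ^ (j + 2)) = 1 := by rw [hww, one_pow]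
        rw [mul_pow, hw, one_mul] at this
        exact this
      have o1 := orbit_sum φ _ j s hs hφ z hz
      have o2 := orbit_sum φ _ j s hs hφ z' hz'
      have o3 := orbit_sum φ _ j s hs hφ w hw
      have o4 := orbit_sum φ _ j s hs hφ w' hw'
      have s1 : φ z + φ z' + φ w + φ w' + 1 = 0 := by
        have := congrArg φ hsum
        simpa using this
      have s2 : φ (φ z) + φ (φ z') + φ (φ w) + φ (φ w') + 1 = 0 := by
        have := congrArg φ s1
        simpa using this
      have cube : ∀ y : K, y ^ (3 ^ (j + 2)) = 1 → (y ^ (3 ^ (j + 1))) ^ 3 = 1 := by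
        intro y hy
        rw [← pow_mul, ← pow_succ, hy]
      have inv1 : ∀ y y' : K, y * y' = 1 → y' ^ (3 ^ (j + 1)) = 1 → y ^ (3 ^ (j + 1)) = 1 := by
        intro y y' hyy hy'
        have : (y * y') ^ (3 ^ (j + 1)) = 1 := by rw [hyy, one_pow]
        rw [mul_pow, hy', mul_one] at this
        exact this
      by_cases ca : z ^ (3 ^ (j + 1)) = 1
      · by_cases cb : w ^ (3 ^ (j + 1)) = 1
        · exact ih z z' w w' hzz hww ca cb hz1 hw1 hsum
        · have cb' : w' ^ (3 ^ (j + 1)) ≠ 1 := fun h => cb (inv1 w w' hww h)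
          have ca' : z' ^ (3 ^ (j + 1)) = 1 := inv1 z' z (by rw [mul_comm, hzz]) ca
          rw [cube_root_sum (cube w hw) cb] at o3
          rw [cube_root_sum (cube w' hw') cb'] at o4
          rw [ca] at o1
          rw [ca'] at o2
          have : w + w' = 0 := by
            linear_combination hsum - (hsum + s1 + s2 - o1 - o2 - o3 - o4) + (z + z' + 1) * h2
          exact hw1 (eq_one_of_add_inv hww this)
      · have ca' : z' ^ (3 ^ (j + 1)) ≠ 1 := fun h => ca (inv1 z z' hzz h)
        rw [cube_root_sum (cube z hz) ca] at o1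
        rw [cube_root_sum (cube z' hz') ca'] at o2
        by_cases cb : w ^ (3 ^ (j + 1)) = 1
        · have cb' : w' ^ (3 ^ (j + 1)) = 1 := inv1 w' w (by rw [mul_comm, hww]) cb
          rw [cb] at o3
          rw [cb'] at o4
          have : z + z' = 0 := by
            linear_combination hsum - (hsum + s1 + s2 - o1 - o2 - o3 - o4) + (w + w' + 1) * h2
          exact hz1 (eq_one_of_add_inv hzz this)
        · have cb' : w' ^ (3 ^ (j + 1)) ≠ 1 := fun h => cb (inv1 w w' hww h)
          rw [cube_root_sum (cube w hw) cb] at o3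
          rw [cube_root_sum (cube w' hw') cb'] at o4
          have : (1 : K) = 0 := by
            linear_combination (hsum + s1 + s2 - o1 - o2 - o3 - o4) - h2
          exact one_ne_zero this

end field

lemma exists_param {K : Type*} [Field K] [IsAlgClosed K] (x : K) :
    ∃ z z' : K, z * z' = 1 ∧ z + z' = x := by
  obtain ⟨z, hz⟩ := IsAlgClosed.exists_root (X ^ 2 - C x * X + 1 : K[X]) (by
    have : (X ^ 2 - C x * X + 1 : K[X]).degree = 2 := by compute_degree!
    rw [this]; norm_num)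
  simp only [IsRoot.def, eval_add, eval_sub, eval_pow, eval_X, eval_mul, eval_C, eval_one] at hz
  exact ⟨z, x - z, by linear_combination (-1 : K) * hz, by ring⟩

lemma coprime_fib (k : ℕ) : IsCoprime (fib (3 ^ k)) ((fib (3 ^ k)).comp (X + 1)) := by
  let K := AlgebraicClosure (ZMod 2)
  have h2 : (2 : K) = 0 := two_eq_zero_K
  refine (Polynomial.isCoprime_iff_aeval_ne_zero_of_isAlgClosed (ZMod 2) K _ _).2 ?_
  intro x
  by_contra hcon
  push Not at hcon
  obtain ⟨h1, h3⟩ := hcon
  rw [aeval_comp] at h3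
  simp only [map_add, aeval_X, map_one] at h3
  obtain ⟨m, hm⟩ : ∃ m, 3 ^ k = 2 * m + 1 := (Odd.pow (by decide : Odd 3) : Odd (3 ^ k))
  have key : ∀ y : K, aeval y (fib (3 ^ k)) = 0 →
      ∃ z z' : K, z * z' = 1 ∧ z + z' = y ∧ z ^ (3 ^ k) = 1 ∧ z ≠ 1 := by
    intro y hy
    obtain ⟨z, z', hzz, hs⟩ := exists_param y
    refine ⟨z, z', hzz, hs, ?_, ?_⟩
    · have := (fib_eval z z' hzz (3 ^ k)).1
      rw [hs, hy, mul_zero] at this
      have hp : z ^ (3 ^ k) * z' ^ (3 ^ k) = 1 := by rw [← mul_pow, hzz, one_pow]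
      exact eq_one_of_add_inv hp this.symm
    · rintro rfl
      have : z' = 1 := by simpa using hzz
      have y0 : y = 0 := by rw [← hs, this]; linear_combination h2
      rw [y0, hm, (fib_eval_zero m).2] at hy
      exact one_ne_zero hy
  obtain ⟨z, z', hzz, hs, hz, hz1⟩ := key x h1
  obtain ⟨w, w', hww, ht, hw, hw1⟩ := key (x + 1) h3
  refine no_solution k z z' w w' hzz hww hz hw hz1 hw1 ?_
  linear_combination hs + ht + (x + 1) * h2

/-- The two polynomials have greatest common divisor X (X + 1). -/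
lemma gcd_fib (k : ℕ) (hk : 1 ≤ k) : ∃ a b : (ZMod 2)[X],
    fib (2 * 3 ^ k) = a * (X * (X + 1)) ∧ (fib (2 * 3 ^ k)).comp (X + 1) = b * (X * (X + 1)) ∧
      IsCoprime a b := by
  obtain ⟨j, rfl⟩ : ∃ j, k = j + 1 := ⟨k - 1, by omega⟩
  have hroot : (fib (3 ^ (j + 1))).IsRoot 1 := by
    have := (fib_eval_one (K := ZMod 2) (3 ^ j)).1
    rw [← pow_succ'] at this
    simpa [IsRoot.def, aeval_def] using this
  obtain ⟨u, hu⟩ := dvd_iff_isRoot.2 hroot
  have hX : (X - C 1 : (ZMod 2)[X]) = X + 1 := by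
    rw [map_one]; linear_combination (-1 : (ZMod 2)[X]) * two_eq_zero_poly
  rw [hX] at hu
  have hu' : (fib (3 ^ (j + 1))).comp (X + 1) = X * u.comp (X + 1) := by
    rw [hu]
    simp only [mul_comp, add_comp, X_comp, one_comp]
    linear_combination (u.comp (X + 1)) * two_eq_zero_poly
  have hc := coprime_fib (j + 1)
  refine ⟨u * fib (3 ^ (j + 1)), u.comp (X + 1) * (fib (3 ^ (j + 1))).comp (X + 1), ?_, ?_, ?_⟩
  · rw [(fib_double _).1]
    linear_combination (X * fib (3 ^ (j + 1))) * hu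
  · rw [(fib_double _).1]
    simp only [mul_comp, pow_comp, X_comp]
    linear_combination ((X + 1) * (fib (3 ^ (j + 1))).comp (X + 1)) * hu'
  · have d1 : u ∣ fib (3 ^ (j + 1)) := ⟨X + 1, by rw [hu]; ring⟩
    have d2 : u.comp (X + 1) ∣ (fib (3 ^ (j + 1))).comp (X + 1) := ⟨X, by rw [hu']; ring⟩
    refine IsCoprime.mul_left (IsCoprime.mul_right ?_ ?_) (IsCoprime.mul_right ?_ hc)
    · exact (hc.of_isCoprime_of_dvd_left d1).of_isCoprime_of_dvd_right d2
    · exact hc.of_isCoprime_of_dvd_left d1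
    · exact hc.of_isCoprime_of_dvd_right d2

end Pool.Agent.Lib.MP_222d4b_co
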