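import Mathlib
import Pool.Agent.Lib.MP_222d4b_co.Poly

set_option autoImplicit false

namespace Pool.Agent.Lib.MP_222d4b_co

open Polynomial

section rec
variable {M : Type*} [AddCommGroup M] [Module (ZMod 2) M]

lemma add_self_M (x : M) : x + x = 0 := by
  have h : (2 : ZMod 2) = 0 := rfl
  rw [← two_smul (ZMod 2) x, h, zero_smul]

/-- Extension by zero, with indices shifted by one. -/
def ext {n : ℕ} (v : Fin n → M) : ℕ → M
  | 0 => 0
  | (j + 1) => if h : j < n then v ⟨j, h⟩ else 0

omit [Module (ZMod 2) M] in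
lemma ext_succ {n : ℕ} (v : Fin n → M) (i : Fin n) : ext v (i + 1) = v i := by
  simp [ext]

omit [Module (ZMod 2) M] in
lemma ext_top {n : ℕ} (v : Fin n → M) : ext v (n + 1) = 0 := by
  simp [ext]

omit [Module (ZMod 2) M] in
lemma ext_add {n : ℕ} (v w : Fin n → M) (j : ℕ) : ext (v + w) j = ext v j + ext w j := by
  cases j with
  | zero => simp [ext]
  | succ j => by_cases h : j < n <;> simp [ext, h]

lemma ext_smul {n : ℕ} (c : ZMod 2) (v : Fin n → M) (j : ℕ) : ext (c • v) j = c • ext v j := by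
  cases j with
  | zero => simp [ext]
  | succ j => by_cases h : j < n <;> simp [ext, h]

/-- Adjacency operator of the path with coefficients in M. -/
def pathOp (n : ℕ) (M : Type*) [AddCommGroup M] [Module (ZMod 2) M] :
    (Fin n → M) →ₗ[ZMod 2] (Fin n → M) where
  toFun v := fun i => ext v i + ext v (i + 2)
  map_add' v w := by
    funext i
    simp only [ext_add, Pi.add_apply]
    abel
  map_smul' c v := by
    funext i
    simp only [ext_smul, Pi.smul_apply, RingHom.id_apply, smul_add]

lemma pathOp_apply {n : ℕ} (v : Fin n → M) (i : Fin n) :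
    pathOp n M v i = ext v i + ext v (i + 2) := rfl

/-- The solution of the three term recurrence with first entry r. -/
noncomputable def sol (n : ℕ) (S : M →ₗ[ZMod 2] M) : M →ₗ[ZMod 2] (Fin n → M) :=
  LinearMap.pi fun i => (aeval S (fib (i + 1)) : Module.End (ZMod 2) M)

lemma sol_apply {n : ℕ} (S : M →ₗ[ZMod 2] M) (r : M) (i : Fin n) :
    sol n S r i = (aeval S (fib (i + 1)) : Module.End (ZMod 2) M) r := rfl

lemma sol_injective {n : ℕ} (hn : 0 < n) (S : M →ₗ[ZMod 2] M) : Function.Injective (sol n S) := by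
  intro r r' h
  have := congrFun h ⟨0, hn⟩
  simpa [sol_apply, fib_one] using this

lemma aeval_fib_step (S : M →ₗ[ZMod 2] M) (r : M) (j : ℕ) :
    (aeval S (fib (j + 2)) : Module.End (ZMod 2) M) r =
      S ((aeval S (fib (j + 1)) : Module.End (ZMod 2) M) r) +
        (aeval S (fib j) : Module.End (ZMod 2) M) r := by
  rw [fib_add_two]
  simp

lemma rec_solution {n : ℕ} (S : M →ₗ[ZMod 2] M) (v : Fin n → M)
    (hv : ∀ i : Fin n, ext v i + ext v (i + 2) + S (v i) = 0) :
    ∀ j, j ≤ n → ext v j = (aeval S (fib j) : Module.End (ZMod 2) M) (ext v 1) ∧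
      ext v (j + 1) = (aeval S (fib (j + 1)) : Module.End (ZMod 2) M) (ext v 1) := by
  intro j
  induction j with
  | zero => intro _; simp [fib_zero, fib_one, ext]
  | succ j ih =>
    intro hj
    obtain ⟨h0, h1⟩ := ih (by omega)
    refine ⟨h1, ?_⟩
    have h := hv ⟨j, by omega⟩
    have e : v ⟨j, by omega⟩ = ext v (j + 1) := (ext_succ v ⟨j, by omega⟩).symm
    rw [e] at h
    rw [aeval_fib_step, ← h0, ← h1]
    have h2 := add_self_M (ext v j)
    have h3 := add_self_M (S (ext v (j + 1)))
    have : ext v (j + 1 + 1) = (ext v j + ext v (j + 2) + S (ext v (j + 1))) +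
        (S (ext v (j + 1)) + ext v j) - (ext v j + ext v j) -
        (S (ext v (j + 1)) + S (ext v (j + 1))) := by abel
    rw [this, h2, h3]
    simp only at h
    rw [h]
    simp

lemma ker_eq_map {n : ℕ} (hn : 0 < n) (S : M →ₗ[ZMod 2] M) :
    LinearMap.ker (pathOp n M + S.compLeft (Fin n)) =
      (LinearMap.ker (aeval S (fib (n + 1)) : Module.End (ZMod 2) M)).map (sol n S) := by
  apply le_antisymm
  · intro v hv
    have hv' : ∀ i : Fin n, ext v i + ext v (i + 2) + S (v i) = 0 := fun i => congrFun hv i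
    have key := rec_solution S v hv'
    refine ⟨ext v 1, ?_, ?_⟩
    · have := (key n le_rfl).2
      rw [ext_top] at this
      exact this.symm
    · funext i
      rw [sol_apply, ← (key i i.2.le).2, ext_succ]
  · rintro _ ⟨r, hr, rfl⟩
    have hr' : (aeval S (fib (n + 1)) : Module.End (ZMod 2) M) r = 0 := hr
    have e : ∀ j, j ≤ n + 1 →
        ext (sol n S r) j = (aeval S (fib j) : Module.End (ZMod 2) M) r := by
      intro j hj
      cases j with
      | zero => simp [ext, fib_zero]
      | succ j =>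
        by_cases h : j < n
        · simp [ext, h, sol_apply]
        · have : j = n := by omega
          subst this
          rw [ext_top, hr']
    rw [LinearMap.mem_ker]
    funext i
    have hi := i.2
    show ext (sol n S r) i + ext (sol n S r) (i + 2) + S (sol n S r i) = 0
    rw [e i (by omega), e (i + 2) (by omega), sol_apply, aeval_fib_step]
    have h2 := add_self_M ((aeval S (fib i) : Module.End (ZMod 2) M) r)
    have h3 := add_self_M (S ((aeval S (fib (i + 1)) : Module.End (ZMod 2) M) r))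
    rw [← add_zero (0 : M)]
    nth_rewrite 1 [← h2]
    rw [← h3]
    abel

lemma finrank_ker_eq {n : ℕ} (hn : 0 < n) (S : M →ₗ[ZMod 2] M) :
    Module.finrank (ZMod 2) (LinearMap.ker (pathOp n M + S.compLeft (Fin n))) =
      Module.finrank (ZMod 2)
        (LinearMap.ker (aeval S (fib (n + 1)) : Module.End (ZMod 2) M)) := by
  rw [ker_eq_map hn]
  exact (LinearEquiv.finrank_eq (Submodule.equivMapOfInjective _ (sol_injective hn S) _)).symm

end rec

lemma ext_single {n : ℕ} (j : Fin n) (i : ℕ) :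
    ext (Pi.single j (1 : ZMod 2) : Fin n → ZMod 2) i = if i = j + 1 then 1 else 0 := by
  cases i with
  | zero => simp [ext]
  | succ i =>
    by_cases h : i < n
    · simp only [ext, h, dif_pos, Pi.single_apply, Fin.ext_iff]
      by_cases h' : i = j <;> simp [h']
    · have : i ≠ j := by have := j.2; omega
      simp [ext, h, this]

lemma ext_id {n : ℕ} (i : ℕ) (j : Fin n) :
    ext (fun a : Fin n => (Pi.single a (1 : ZMod 2) : Fin n → ZMod 2)) i j =
      if i = j + 1 then 1 else 0 := by
  cases i with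
  | zero => simp [ext]
  | succ i =>
    by_cases h : i < n
    · simp only [ext, h, dif_pos, Pi.single_apply, Fin.ext_iff]
      by_cases h' : i = j
      · simp [h']
      · have : (j : ℕ) ≠ i := fun e => h' e.symm
        simp [h', this]
    · have : i ≠ j := by have := j.2; omega
      simp [ext, h, this]

lemma aeval_pathOp {n : ℕ} (hn : 0 < n) :
    (aeval (pathOp n (ZMod 2)) (fib (n + 1)) : Module.End (ZMod 2) (Fin n → ZMod 2)) = 0 := by
  have hv : (fun a : Fin n => (Pi.single a (1 : ZMod 2) : Fin n → ZMod 2)) ∈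
      LinearMap.ker (pathOp n (Fin n → ZMod 2) + (pathOp n (ZMod 2)).compLeft (Fin n)) := by
    rw [LinearMap.mem_ker]
    funext i j
    show ext (fun a : Fin n => (Pi.single a (1 : ZMod 2) : Fin n → ZMod 2)) i j +
      ext (fun a : Fin n => (Pi.single a (1 : ZMod 2) : Fin n → ZMod 2)) (i + 2) j +
      (ext (Pi.single i (1 : ZMod 2) : Fin n → ZMod 2) j +
        ext (Pi.single i (1 : ZMod 2) : Fin n → ZMod 2) (j + 2)) = 0
    rw [ext_id, ext_id, ext_single, ext_single]
    split_ifs <;> first | rfl | omega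
  rw [ker_eq_map hn] at hv
  obtain ⟨r, hr, hs⟩ := hv
  have hr' : (aeval (pathOp n (ZMod 2)) (fib (n + 1)) :
    Module.End (ZMod 2) (Fin n → ZMod 2)) r = 0 := hr
  apply LinearMap.pi_ext'
  intro i
  apply LinearMap.ext_ring
  have hi : (Pi.single i (1 : ZMod 2) : Fin n → ZMod 2) =
      (aeval (pathOp n (ZMod 2)) (fib (i + 1)) : Module.End (ZMod 2) (Fin n → ZMod 2)) r :=
    (congrFun hs i).symm
  simp only [LinearMap.coe_comp, LinearMap.coe_single, Function.comp_apply, LinearMap.zero_comp,
    LinearMap.zero_apply]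
  rw [hi, ← Module.End.mul_apply, ← map_mul, mul_comm, map_mul, Module.End.mul_apply, hr', map_zero]

lemma ker_of_gcd {M : Type*} [AddCommGroup M] [Module (ZMod 2) M] (T : Module.End (ZMod 2) M)
    (f g h a b : (ZMod 2)[X]) (hf : f = a * h) (hg : g = b * h) (hab : IsCoprime a b)
    (hT : aeval T f = 0) : LinearMap.ker (aeval T g) = LinearMap.ker (aeval T h) := by
  obtain ⟨u, v, huv⟩ := hab
  apply le_antisymm
  · intro x hx
    rw [LinearMap.mem_ker] at hx ⊢
    have : h = u * f + v * g := by rw [hf, hg]; linear_combination (-h) * huv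
    rw [this, map_add, map_mul, map_mul, hT, mul_zero, zero_add, Module.End.mul_apply, hx, map_zero]
  · intro x hx
    rw [LinearMap.mem_ker] at hx ⊢
    rw [hg, map_mul, Module.End.mul_apply, hx, map_zero]

lemma finrank_eigen {n : ℕ} (hn : 0 < n) (c : ZMod 2) (hc : aeval c (fib (n + 1)) = 0) :
    Module.finrank (ZMod 2) (LinearMap.ker (aeval (pathOp n (ZMod 2)) (X + C c) :
      Module.End (ZMod 2) (Fin n → ZMod 2))) = 1 := by
  have e : (aeval (pathOp n (ZMod 2)) (X + C c) : Module.End (ZMod 2) (Fin n → ZMod 2)) =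
      pathOp n (ZMod 2) +
        (algebraMap (ZMod 2) (Module.End (ZMod 2) (ZMod 2)) c).compLeft (Fin n) := by
    simp only [map_add, aeval_X, aeval_C]
    rfl
  rw [e, finrank_ker_eq hn, aeval_algebraMap_apply, hc, map_zero, LinearMap.ker_zero,
    finrank_top, Module.finrank_self]

lemma finrank_main (k : ℕ) (hk : 1 ≤ k) (n : ℕ) (hn : n + 1 = 2 * 3 ^ k) :
    Module.finrank (ZMod 2) (LinearMap.ker (pathOp n (Fin n → ZMod 2) +
      (pathOp n (ZMod 2) + 1 : Module.End (ZMod 2) (Fin n → ZMod 2)).compLeft (Fin n))) = 2 := by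
  have hpos : 0 < n := by
    have : 1 ≤ 3 ^ k := Nat.one_le_pow _ _ (by norm_num)
    omega
  rw [finrank_ker_eq hpos]
  obtain ⟨a, b, ha, hb, hab⟩ := gcd_fib k hk
  rw [← hn] at ha hb
  have e : (aeval (pathOp n (ZMod 2) + 1 : Module.End (ZMod 2) (Fin n → ZMod 2)) (fib (n + 1)) :
      Module.End (ZMod 2) (Fin n → ZMod 2)) =
      aeval (pathOp n (ZMod 2) : Module.End (ZMod 2) (Fin n → ZMod 2))
        ((fib (n + 1)).comp (X + 1)) := by
    rw [aeval_comp]
    simp
  rw [e, ker_of_gcd _ _ _ _ a b ha hb hab (aeval_pathOp hpos)]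
  have hcop : IsCoprime (X + C 0 : (ZMod 2)[X]) (X + C 1) := ⟨-1, 1, by simp⟩
  have e2 : (X * (X + 1) : (ZMod 2)[X]) = (X + C 0) * (X + C 1) := by simp
  rw [e2, ← sup_ker_aeval_eq_ker_aeval_mul_of_coprime _ hcop]
  have hd := disjoint_ker_aeval_of_isCoprime (pathOp n (ZMod 2)) hcop
  have hs := Submodule.finrank_sup_add_finrank_inf_eq
    (LinearMap.ker (aeval (pathOp n (ZMod 2)) (X + C 0 : (ZMod 2)[X])))
    (LinearMap.ker (aeval (pathOp n (ZMod 2)) (X + C 1 : (ZMod 2)[X])))
  rw [hd.eq_bot, finrank_bot, add_zero, finrank_eigen hpos 0, finrank_eigen hpos 1] at hs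
  · exact hs
  · obtain ⟨j, rfl⟩ : ∃ j, k = j + 1 := ⟨k - 1, by omega⟩
    have : n + 1 = 3 * (2 * 3 ^ j) := by rw [hn]; ring
    rw [this]
    exact (fib_eval_one _).1
  · rw [hn]
    exact (fib_eval_zero _).1

end Pool.Agent.Lib.MP_222d4b_co
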