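import Mathlib
import Pool.Agent.Lib.MP_222d4b_co.Lin

/-!
Every value of the nullity is repeated along the multiples `N * (2 ^ j - 3)`.
-/

set_option autoImplicit false

namespace Pool.Agent.Lib.MP_222d4b_co

open Polynomial

lemma fib_deg (n : ℕ) : (fib n).natDegree ≤ n ∧ (fib n).coeff n = 0 ∧
    (fib (n + 1)).natDegree ≤ n ∧ (fib (n + 1)).coeff n = 1 := by
  induction n with
  | zero => simp [fib_zero, fib_one]
  | succ n ih =>
    obtain ⟨h1, -, h3, h4⟩ := ih
    refine ⟨h3.trans n.le_succ, coeff_eq_zero_of_natDegree_lt (Nat.lt_succ_of_le h3), ?_, ?_⟩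
    · rw [fib_add_two]
      refine (natDegree_add_le _ _).trans (max_le (natDegree_mul_le.trans ?_) (h1.trans n.le_succ))
      rw [natDegree_X]
      omega
    · rw [fib_add_two, coeff_add, coeff_X_mul, h4,
        coeff_eq_zero_of_natDegree_lt (Nat.lt_succ_of_le h1), add_zero]

lemma fib_ne_zero (n : ℕ) : fib (n + 1) ≠ 0 := fun h => by
  have := (fib_deg n).2.2.2
  rw [h, coeff_zero] at this
  exact zero_ne_one this

lemma first_entry {n : ℕ} (hn : 0 < n) : ∀ j, j < n → ∀ v : Fin n → ZMod 2,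
    (aeval (pathOp n (ZMod 2)) (fib j) : Module.End (ZMod 2) _) v ⟨0, hn⟩ = ext v j ∧
      (aeval (pathOp n (ZMod 2)) (fib (j + 1)) : Module.End (ZMod 2) _) v ⟨0, hn⟩ =
        ext v (j + 1) := by
  intro j
  induction j with
  | zero =>
    intro _ v
    exact ⟨by simp [fib_zero, ext], by simp [fib_one, ext, hn]⟩
  | succ j ih =>
    intro hj v
    refine ⟨(ih (by omega) v).2, ?_⟩
    rw [fib_add_two, mul_comm, map_add, map_mul, aeval_X, LinearMap.add_apply,
      Module.End.mul_apply, Pi.add_apply, (ih (by omega) _).2, (ih (by omega) v).1,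
      ext_succ _ (⟨j, by omega⟩ : Fin n), pathOp_apply]
    linear_combination add_self_M (ext v j)

lemma finrank_ker_le {n : ℕ} (hn : 0 < n) {h : (ZMod 2)[X]} (hh : h ≠ 0) :
    Module.finrank (ZMod 2) (LinearMap.ker (aeval (pathOp n (ZMod 2)) h :
      Module.End (ZMod 2) (Fin n → ZMod 2))) ≤ h.natDegree := by
  set T : Module.End (ZMod 2) (Fin n → ZMod 2) := pathOp n (ZMod 2) with hT
  let L : LinearMap.ker (aeval T h) →ₗ[ZMod 2] (Fin h.natDegree → ZMod 2) :=
    (LinearMap.pi fun k : Fin h.natDegree =>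
      (LinearMap.proj ⟨0, hn⟩).comp (T ^ (k : ℕ))).comp (Submodule.subtype _)
  have hL : Function.Injective L := by
    rw [injective_iff_map_eq_zero]
    rintro ⟨v, hv⟩ h0
    have h1 : ∀ k, k < h.natDegree → (T ^ k) v ⟨0, hn⟩ = 0 := fun k hk => congrFun h0 ⟨k, hk⟩
    have h2 : ∀ p : (ZMod 2)[X], aeval T p v ⟨0, hn⟩ = 0 := fun p => by
      rw [← EuclideanDomain.mod_add_div p h, mul_comm, map_add, map_mul, LinearMap.add_apply,
        Module.End.mul_apply, LinearMap.mem_ker.1 hv, map_zero, add_zero, aeval_def,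
        eval₂_eq_sum, sum_def, LinearMap.sum_apply, Finset.sum_apply]
      refine Finset.sum_eq_zero fun k hk => ?_
      have h3 := (le_degree_of_mem_supp k hk).trans_lt (degree_mod_lt p hh)
      rw [degree_eq_natDegree hh, Nat.cast_lt] at h3
      rw [← Algebra.smul_def, LinearMap.smul_apply, Pi.smul_apply, h1 k h3, smul_zero]
    ext i
    have := (first_entry hn i i.2 v).2
    rw [h2, ext_succ] at this
    exact this.symm
  simpa using LinearMap.finrank_le_finrank_of_injective hL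

lemma finrank_ker_of_dvd {n : ℕ} (hn : 0 < n) {a h : (ZMod 2)[X]} (ha : fib (n + 1) = a * h) :
    Module.finrank (ZMod 2) (LinearMap.ker (aeval (pathOp n (ZMod 2)) h :
      Module.End (ZMod 2) (Fin n → ZMod 2))) = h.natDegree := by
  have h0 := fib_ne_zero n
  rw [ha, mul_ne_zero_iff] at h0
  have h1 := (fib_deg n).2.2.1
  rw [ha, natDegree_mul h0.1 h0.2] at h1
  have h2 := finrank_ker_le hn h0.1
  have h3 := LinearMap.finrank_range_add_finrank_ker
    (aeval (pathOp n (ZMod 2)) a : Module.End (ZMod 2) (Fin n → ZMod 2))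
  have h4 : LinearMap.range (aeval (pathOp n (ZMod 2)) a : Module.End (ZMod 2) (Fin n → ZMod 2)) ≤
      LinearMap.ker (aeval (pathOp n (ZMod 2)) h : Module.End (ZMod 2) (Fin n → ZMod 2)) := by
    rintro _ ⟨v, rfl⟩
    rw [LinearMap.mem_ker, ← Module.End.mul_apply, ← map_mul, mul_comm, ← ha, aeval_pathOp hn,
      LinearMap.zero_apply]
  have h5 := Submodule.finrank_mono h4
  rw [Module.finrank_fin_fun] at h3
  exact le_antisymm (finrank_ker_le hn h0.2) (by omega)

lemma finrank_grid {n : ℕ} (hn : 0 < n) {a b h : (ZMod 2)[X]} (ha : fib (n + 1) = a * h)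
    (hb : (fib (n + 1)).comp (X + 1) = b * h) (hab : IsCoprime a b) :
    Module.finrank (ZMod 2) (LinearMap.ker (pathOp n (Fin n → ZMod 2) +
      (pathOp n (ZMod 2) + 1 : Module.End (ZMod 2) (Fin n → ZMod 2)).compLeft (Fin n))) =
        h.natDegree := by
  have e : (aeval (pathOp n (ZMod 2) + 1 : Module.End (ZMod 2) (Fin n → ZMod 2)) (fib (n + 1)) :
      Module.End (ZMod 2) (Fin n → ZMod 2)) =
      aeval (pathOp n (ZMod 2) : Module.End (ZMod 2) (Fin n → ZMod 2))
        ((fib (n + 1)).comp (X + 1)) := by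
    rw [aeval_comp]
    simp
  rw [finrank_ker_eq hn, e, ker_of_gcd _ _ _ _ a b ha hb hab (aeval_pathOp hn),
    finrank_ker_of_dvd hn ha]

lemma fib_mul (N R : ℕ) : fib (N * R) = fib N * (fib R).comp (X * fib N) := by
  let K := AlgebraicClosure (ZMod 2)
  refine mul_left_cancel₀ X_ne_zero (map_injective _ (algebraMap (ZMod 2) K).injective
    (Polynomial.funext fun x => ?_))
  obtain ⟨z, z', hz, rfl⟩ := exists_param x
  have h1 := (fib_eval (z ^ N) (z' ^ N) (by rw [← mul_pow, hz, one_pow]) R).1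
  rw [eval_map_algebraMap, eval_map_algebraMap, map_mul, map_mul, map_mul, aeval_comp, map_mul,
    aeval_X, ← mul_assoc, (fib_eval z z' hz _).1, (fib_eval z z' hz _).1, h1, pow_mul, pow_mul]

section field
variable {K : Type*} [Field K] [Algebra (ZMod 2) K]

/-- The eliminant of the curve and of its twisted cube. -/
noncomputable def elim (a b : K) : K[X] :=
  (C a * X ^ 6 + X ^ 3 + C a⁻¹) ^ 2 + C (b + b⁻¹) * (C a * X ^ 6 + X ^ 3 + C a⁻¹) *
    ((X ^ 2 + X + 1) ^ 3 + (X ^ 2 + X + 1) * X ^ 2) +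
      ((X ^ 2 + X + 1) ^ 3 + (X ^ 2 + X + 1) * X ^ 2) ^ 2 + C (b + b⁻¹) ^ 2 * X ^ 6

lemma elim_ne_zero {a : K} (ha : a ≠ 0) (b : K) : elim a b ≠ 0 := fun h => by
  have h2 : (2 : K) = 0 := two_eq_zero_K
  have e0 := congrArg (eval 0) h
  have e1 := congrArg (eval 1) h
  have e2 := mul_inv_cancel₀ ha
  simp only [elim, eval_add, eval_mul, eval_pow, eval_C, eval_X, eval_one, eval_zero] at e0 e1
  generalize b + b⁻¹ = β at *
  have e3 : a + 1 + a⁻¹ + β = 0 := pow_eq_zero_iff two_ne_zero |>.1 (by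
    linear_combination e1 - (14 * β * (a + 1 + a⁻¹) + 450) * h2)
  refine inv_ne_zero ha ?_
  linear_combination a⁻¹ * e3 - e0 - e2 + h2 - h2

lemma elim_root {a b z w : K} (hb : b ≠ 0) (hz : z ≠ 0) (hw : w ≠ 0)
    (h1 : z + z⁻¹ + w + w⁻¹ + 1 = 0)
    (h3 : a * z ^ 3 + (a * z ^ 3)⁻¹ + b * w ^ 3 + (b * w ^ 3)⁻¹ + 1 = 0) :
    (elim a b).IsRoot z := by
  have h2 : (2 : K) = 0 := two_eq_zero_K
  have e1 := mul_inv_cancel₀ hz
  have e2 := mul_inv_cancel₀ hw
  have e3 := mul_inv_cancel₀ hb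
  rw [mul_inv, mul_inv, ← inv_pow, ← inv_pow] at h3
  simp only [IsRoot.def, elim, eval_add, eval_mul, eval_pow, eval_C, eval_X, eval_one]
  generalize z⁻¹ = z' at *
  generalize w⁻¹ = w' at *
  generalize a⁻¹ = a' at *
  generalize b⁻¹ = b' at *
  have s1 : z ^ 2 + z + 1 = z * (w + w') := by
    linear_combination z * h1 - e1 - z * (w + w') * h2
  have s2 : (z ^ 2 + z + 1) ^ 3 + (z ^ 2 + z + 1) * z ^ 2 = z ^ 3 * (w ^ 3 + w' ^ 3) := by
    rw [s1]
    linear_combination 3 * z ^ 3 * (w + w') * e2 + 2 * z ^ 3 * (w + w') * h2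
  have s3 : a * z ^ 6 + z ^ 3 + a' = z ^ 3 * (b * w ^ 3 + b' * w' ^ 3) := by
    linear_combination z ^ 3 * h3 - a' * ((z * z') ^ 2 + z * z' + 1) * e1 -
      z ^ 3 * (b * w ^ 3 + b' * w' ^ 3) * h2
  have s4 : w ^ 3 * w' ^ 3 = 1 := by rw [← mul_pow, e2, one_pow]
  rw [s2, s3]
  generalize w ^ 3 = u at *
  generalize w' ^ 3 = u' at *
  have s5 : (b * u + b' * u') ^ 2 + (b + b') * (b * u + b' * u') * (u + u') + (u + u') ^ 2 +
      (b + b') ^ 2 = 0 := by
    linear_combination (u + u') ^ 2 * e3 + (b ^ 2 + b' ^ 2 + 2 * b * b') * s4 +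
      ((b * u) ^ 2 + (b' * u') ^ 2 + (u + u') ^ 2 + (b + b') ^ 2) * h2
  linear_combination z ^ 6 * s5

end field

lemma exists_period (N : ℕ) (hN : 0 < N) : ∃ F : ℕ, 0 < F ∧ ∀ j R : ℕ, R + 3 = 2 ^ (F * j) →
    ∀ z w : AlgebraicClosure (ZMod 2), z ≠ 0 → w ≠ 0 → z ^ (N * R) = 1 → w ^ (N * R) = 1 →
      z + z⁻¹ + w + w⁻¹ + 1 = 0 → z ^ N = 1 := by
  classical
  set K := AlgebraicClosure (ZMod 2)
  have h2 : (2 : K) = 0 := two_eq_zero_K
  have : Fact (Nat.Prime 2) := ⟨Nat.prime_two⟩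
  have : CharP K 2 := charP_of_injective_algebraMap (algebraMap (ZMod 2) K).injective 2
  have hμ : {a : K | a ^ N = 1}.Finite :=
    (nthRoots N (1 : K)).toFinset.finite_toSet.subset fun a ha => by
      simpa [mem_nthRoots hN] using ha
  have hne : ∀ a : K, a ^ N = 1 → a ≠ 0 := fun a ha h => by
    rw [h, zero_pow hN.ne'] at ha
    exact zero_ne_one ha
  set S : Set K := ⋃ a ∈ {a : K | a ^ N = 1}, ⋃ b ∈ {a : K | a ^ N = 1}, {z | (elim a b).IsRoot z}
    with hS
  have hfin : S.Finite := hμ.biUnion fun a ha => hμ.biUnion fun b _ =>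
    finite_setOfPred_isRoot (elim_ne_zero (hne a ha) b)
  have := hfin.to_subtype
  have := IntermediateField.finiteDimensional_adjoin (K := ZMod 2) (S := S)
    fun x _ => Algebra.IsIntegral.isIntegral x
  have : Finite (IntermediateField.adjoin (ZMod 2) S) := Module.finite_of_finite (ZMod 2)
  have := Fintype.ofFinite (IntermediateField.adjoin (ZMod 2) S)
  refine ⟨Module.finrank (ZMod 2) (IntermediateField.adjoin (ZMod 2) S), Module.finrank_pos,
    fun j R hR z w hz hw hzN hwN h => ?_⟩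
  have e1 : ∀ y : K, y ^ 2 ^ (Module.finrank (ZMod 2) (IntermediateField.adjoin (ZMod 2) S) * j) =
      y ^ R * y ^ 3 := fun y => by rw [← hR, pow_add]
  have e2 := congrArg (iterateFrobenius K 2
    (Module.finrank (ZMod 2) (IntermediateField.adjoin (ZMod 2) S) * j)) h
  simp only [map_add, map_inv₀, map_one, map_zero, iterateFrobenius_def, e1] at e2
  rw [mul_comm, pow_mul] at hzN hwN
  have e3 : z ∈ S := Set.mem_biUnion hzN (Set.mem_biUnion hwN
    (elim_root (hne _ hwN) hz hw h e2))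
  have e4 := congrArg Subtype.val (FiniteField.pow_card_pow j
    (⟨z, IntermediateField.subset_adjoin _ _ e3⟩ : IntermediateField.adjoin (ZMod 2) S))
  rw [Module.card_eq_pow_finrank (K := ZMod 2), ZMod.card, ← pow_mul] at e4
  have e5 : z ^ R * z ^ 2 = 1 := mul_right_cancel₀ hz (by
    rw [one_mul, mul_assoc, ← pow_succ, ← e1]
    exact e4)
  have e6 : z ^ N * z ^ N = 1 := by
    have := congrArg (· ^ N) e5
    simp only [mul_pow, hzN, one_mul, one_pow] at this
    rw [← this]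
    ring
  exact eq_one_of_add_inv e6 (by linear_combination z ^ N * h2)

lemma exists_family (N : ℕ) (hN : 0 < N) : ∃ F : ℕ, 0 < F ∧ ∀ j R : ℕ, R + 3 = 2 ^ (F * j) →
    IsCoprime ((fib R).comp (X * fib N)) ((fib (N * R)).comp (X + 1)) ∧
      IsCoprime (fib (N * R)) (((fib R).comp (X * fib N)).comp (X + 1)) := by
  obtain ⟨F, hF, h⟩ := exists_period N hN
  refine ⟨F, hF, fun j R hR => ?_⟩
  set K := AlgebraicClosure (ZMod 2)
  have h2 : (2 : K) = 0 := two_eq_zero_K
  obtain ⟨m, hm⟩ : ∃ m, R = 2 * m + 1 := by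
    rcases hj : F * j with _ | k
    · rw [hj] at hR
      omega
    · rw [hj, pow_succ] at hR
      exact ⟨R / 2, by omega⟩
  have par : ∀ x : K, aeval x (fib (N * R)) = 0 → ∃ z : K, z ≠ 0 ∧ z + z⁻¹ = x ∧ z ^ (N * R) = 1 ∧
      (z ^ N = 1 → aeval x ((fib R).comp (X * fib N)) ≠ 0) := fun x hx => by
    obtain ⟨z, z', hz, rfl⟩ := exists_param x
    have a1 := (fib_eval z z' hz (N * R)).1
    rw [hx, mul_zero] at a1
    refine ⟨z, left_ne_zero_of_mul_eq_one hz, by rw [eq_inv_of_mul_eq_one_right hz],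
      eq_one_of_add_inv (by rw [← mul_pow, hz, one_pow]) a1.symm, fun a2 => ?_⟩
    have a3 : z' ^ N = 1 := by
      have := congrArg (· ^ N) hz
      simpa only [mul_pow, a2, one_mul, one_pow] using this
    rw [aeval_comp, map_mul, aeval_X, (fib_eval z z' hz N).1, a2, a3, one_add_one_eq_two, h2, hm,
      (fib_eval_zero m).2]
    exact one_ne_zero
  have key : ∀ x : K, aeval x (fib (N * R)) = 0 → aeval (x + 1) (fib (N * R)) = 0 →
      aeval x ((fib R).comp (X * fib N)) ≠ 0 ∧ aeval (x + 1) ((fib R).comp (X * fib N)) ≠ 0 :=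
    fun x h0 h1 => by
      obtain ⟨z, hz, a1, a2, a3⟩ := par x h0
      obtain ⟨w, hw, b1, b2, b3⟩ := par _ h1
      exact ⟨a3 (h j R hR z w hz hw a2 b2 (by linear_combination a1 + b1 + (x + 1) * h2)),
        b3 (h j R hR w z hw hz b2 a2 (by linear_combination a1 + b1 + (x + 1) * h2))⟩
  have hz : ∀ x : K, aeval x ((fib R).comp (X * fib N)) = 0 → aeval x (fib (N * R)) = 0 :=
    fun x hx => by rw [fib_mul, map_mul, hx, mul_zero]
  have hc : ∀ (x : K) (p : (ZMod 2)[X]), aeval x (p.comp (X + 1)) = aeval (x + 1) p :=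
    fun x p => by rw [aeval_comp, map_add, aeval_X, map_one]
  constructor <;>
    refine (Polynomial.isCoprime_iff_aeval_ne_zero_of_isAlgClosed (ZMod 2) K _ _).2 fun x => ?_
  · rw [hc]
    by_contra hcon
    push Not at hcon
    exact (key x (hz x hcon.1) hcon.2).1 hcon.1
  · rw [hc]
    by_contra hcon
    push Not at hcon
    exact (key x hcon.1 (hz _ hcon.2)).2 hcon.2

/-- The dimension of the kernel of the grid operator. -/
noncomputable def dimKer (n : ℕ) : ℕ := Module.finrank (ZMod 2)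
  (LinearMap.ker (pathOp n (Fin n → ZMod 2) +
    (pathOp n (ZMod 2) + 1 : Module.End (ZMod 2) (Fin n → ZMod 2)).compLeft (Fin n)))

lemma infinite_values (n₀ : ℕ) (h₀ : 0 < n₀) :
    {n | n₀ + 1 ∣ n + 1 ∧ dimKer n = dimKer n₀}.Infinite := by
  obtain ⟨F, hF, h⟩ := exists_family (n₀ + 1) n₀.succ_pos
  obtain ⟨a, b, ha, hb, hab⟩ := extract_gcd (fib (n₀ + 1)) ((fib (n₀ + 1)).comp (X + 1))
  generalize gcd (fib (n₀ + 1)) ((fib (n₀ + 1)).comp (X + 1)) = g at ha hb
  rw [mul_comm] at ha hb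
  have hab' : IsCoprime a b := (gcd_isUnit_iff a b).1 hab
  refine Set.infinite_of_forall_exists_gt fun m => ?_
  have h1 : 2 ^ (m + 2) ≤ 2 ^ (F * (m + 2)) :=
    Nat.pow_le_pow_right two_pos (Nat.le_mul_of_pos_left _ hF)
  have h2 : m < 2 ^ m := Nat.lt_two_pow_self
  rw [pow_add] at h1
  obtain ⟨R, hR⟩ : ∃ R, R + 3 = 2 ^ (F * (m + 2)) := ⟨2 ^ (F * (m + 2)) - 3, by omega⟩
  obtain ⟨n, hn, hmn⟩ : ∃ n, n + 1 = (n₀ + 1) * R ∧ m < n := by
    have : 2 * R ≤ (n₀ + 1) * R := Nat.mul_le_mul_right _ (by omega)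
    exact ⟨(n₀ + 1) * R - 1, by omega, by omega⟩
  obtain ⟨c1, c2⟩ := h _ R hR
  have e1 := fib_mul (n₀ + 1) R
  generalize (fib R).comp (X * fib (n₀ + 1)) = H at c1 c2 e1
  rw [← hn] at c1 c2 e1
  have e2 : fib (n + 1) = a * H * g := by rw [e1, ha]; ring
  have e3 : (fib (n + 1)).comp (X + 1) = b * H.comp (X + 1) * g := by rw [e1, mul_comp, hb]; ring
  refine ⟨n, ⟨⟨R, hn⟩, ?_⟩, hmn⟩
  rw [dimKer, dimKer, finrank_grid h₀ ha hb hab', finrank_grid (by omega) e2 e3]
  rw [e3] at c1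
  rw [e2] at c2
  exact IsCoprime.mul_left (hab'.mul_right c2.of_mul_left_left.of_mul_left_left)
    c1.of_mul_right_left

end Pool.Agent.Lib.MP_222d4b_co
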